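import Mathlib
import Pool.Agent.V11155.Partizan

/-!
# A misère-invertible dicot in the kernel of an evilly normal pair

Let `u = {0, * | 0}` and `G = {u + u | u}`. The closure `A` of `G` consists of the sums of copies of
`*`, `u` and `G`. The sums with at least one copy of `G` form a kernel `K` for which `(A, K)` is evilly
normal, and `G` is invertible modulo the dicots.
-/

set_option autoImplicit false

namespace Pool.Agent.Results.MP_541980_co.InvertibleFirm

open Pool.Agent.V11155.Partizan Pool.Agent.V11155.Partizan.Game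

/-- `K` is an evil kernel of `A`. -/
structure IsEvilKernel (A K : Set Game) : Prop where
  subset : K ⊆ A
  firm : ∀ G ∈ K, oPlus G = oMinus G
  fickle : ∀ G ∈ A, G ∉ K → oPlus G = oMinus (add G star) ∧ oPlus (add G star) = oMinus G

/-- The pair `(A, K)` is evilly normal. -/
structure EvillyNormal (A K : Set Game) : Prop where
  dicotic : ∀ G ∈ A, Dicotic G
  closed : IsClosedSet A
  kernel : IsEvilKernel A K
  normal : ∀ G ∈ A, ∀ H ∈ A, (add G H ∉ K ↔ (G ∉ K ∧ H ∉ K))

/-- `G` and `H` are equivalent under misère play modulo the set `U`. -/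
def EquivMod (U : Set Game) (G H : Game) : Prop :=
  ∀ X ∈ U, oMinus (add G X) = oMinus (add H X)

/-- `G` is a dicotic game that is invertible modulo the set of all dicotic games. -/
def InvertibleModDicots (G : Game) : Prop :=
  Dicotic G ∧ ∃ H, Dicotic H ∧ EquivMod {X | Dicotic X} (add G H) zero

/-! ### The games -/

/-- `u = {0, * | 0}` -/
def gu : Game := mk 2 1 ![zero, star] ![zero]

/-- `G = {u + u | u}` -/
def gG : Game := mk 1 1 ![add gu gu] ![gu]

/-! ### Sums of copies of `*`, `u` and `G` -/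

/-- Left options of the generators `*`, `u`, `G`. -/
def Lo : Fin 3 → List (Fin 3 → ℕ) := ![[![0, 0, 0]], [![0, 0, 0], ![1, 0, 0]], [![0, 2, 0]]]

/-- Right options of the generators `*`, `u`, `G`. -/
def Ro : Fin 3 → List (Fin 3 → ℕ) := ![[![0, 0, 0]], [![0, 0, 0]], [![0, 1, 0]]]

theorem vec3_ext {x y : Fin 3 → ℕ} : x = y ↔ x 0 = y 0 ∧ x 1 = y 1 ∧ x 2 = y 2 := by
  constructor
  · rintro rfl; exact ⟨rfl, rfl, rfl⟩
  · rintro ⟨h0, h1, h2⟩
    funext j
    fin_cases j
    · exact h0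
    · exact h1
    · exact h2

theorem lo_iff (v x : Fin 3 → ℕ) : Move Lo v x ↔
    (1 ≤ v 0 ∧ x = ![v 0 - 1, v 1, v 2]) ∨
    (1 ≤ v 1 ∧ x = ![v 0, v 1 - 1, v 2]) ∨ (1 ≤ v 1 ∧ x = ![v 0 + 1, v 1 - 1, v 2]) ∨
    (1 ≤ v 2 ∧ x = ![v 0, v 1 + 2, v 2 - 1]) := by
  unfold Move
  simp only [Fin.exists_fin_succ, Fin.isValue, vec3_ext, Lo]
  simp
  omega

theorem ro_iff (v x : Fin 3 → ℕ) : Move Ro v x ↔
    (1 ≤ v 0 ∧ x = ![v 0 - 1, v 1, v 2]) ∨
    (1 ≤ v 1 ∧ x = ![v 0, v 1 - 1, v 2]) ∨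
    (1 ≤ v 2 ∧ x = ![v 0, v 1 + 1, v 2 - 1]) := by
  unfold Move
  simp only [Fin.exists_fin_succ, Fin.isValue, vec3_ext, Ro]
  simp
  omega

/-- Left wins moving first (`m = 0` for normal play, `m = 1` for misère play). -/
def LF (m : ℕ) (v : Fin 3 → ℕ) : Prop := 1 ≤ v 2 ∨ 1 ≤ v 1 ∨ (v 0 + m) % 2 = 1

/-- Right wins moving first. -/
def RF (m : ℕ) (v : Fin 3 → ℕ) : Prop :=
  v 2 = 0 ∧ ((v 1 = 1 ∧ (v 0 + m) % 2 = 0) ∨ (v 1 = 0 ∧ (v 0 + m) % 2 = 1))

theorem LF_rec (mis : Prop) (m : ℕ) (hm : (mis ∧ m = 1) ∨ (¬ mis ∧ m = 0)) (v : Fin 3 → ℕ) :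
    LF m v ↔ (((∀ w, ¬ Move Lo v w) ∧ mis) ∨ ∃ w, Move Lo v w ∧ ¬ RF m w) := by
  simp only [lo_iff, or_and_right, exists_or, and_assoc, exists_and_left, exists_eq_left]
  have hterm : (∀ w, ¬ (1 ≤ v 0 ∧ w = ![v 0 - 1, v 1, v 2] ∨ 1 ≤ v 1 ∧ w = ![v 0, v 1 - 1, v 2] ∨
      1 ≤ v 1 ∧ w = ![v 0 + 1, v 1 - 1, v 2] ∨ 1 ≤ v 2 ∧ w = ![v 0, v 1 + 2, v 2 - 1])) ↔
      (v 0 = 0 ∧ v 1 = 0 ∧ v 2 = 0) := by
    constructor
    · intro h
      have h0 := h ![v 0 - 1, v 1, v 2]
      have h1 := h ![v 0, v 1 - 1, v 2]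
      have h2 := h ![v 0, v 1 + 2, v 2 - 1]
      simp only [and_true] at h0 h1 h2
      omega
    · rintro ⟨h0, h1, h2⟩ w
      omega
  rw [hterm]
  unfold LF RF
  simp only [Matrix.cons_val_zero, Matrix.cons_val_one, Matrix.cons_val]
  generalize v 0 = a
  generalize v 1 = b
  generalize v 2 = c
  rcases hm with ⟨h, rfl⟩ | ⟨h, rfl⟩
  · simp only [h, and_true]
    omega
  · simp only [h, and_false, false_or]
    omega

theorem RF_rec (mis : Prop) (m : ℕ) (hm : (mis ∧ m = 1) ∨ (¬ mis ∧ m = 0)) (v : Fin 3 → ℕ) :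
    RF m v ↔ (((∀ w, ¬ Move Ro v w) ∧ mis) ∨ ∃ w, Move Ro v w ∧ ¬ LF m w) := by
  simp only [ro_iff, or_and_right, exists_or, and_assoc, exists_and_left, exists_eq_left]
  have hterm : (∀ w, ¬ (1 ≤ v 0 ∧ w = ![v 0 - 1, v 1, v 2] ∨ 1 ≤ v 1 ∧ w = ![v 0, v 1 - 1, v 2] ∨
      1 ≤ v 2 ∧ w = ![v 0, v 1 + 1, v 2 - 1])) ↔ (v 0 = 0 ∧ v 1 = 0 ∧ v 2 = 0) := by
    constructor
    · intro h
      have h0 := h ![v 0 - 1, v 1, v 2]
      have h1 := h ![v 0, v 1 - 1, v 2]
      have h2 := h ![v 0, v 1 + 1, v 2 - 1]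
      simp only [and_true] at h0 h1 h2
      omega
    · rintro ⟨h0, h1, h2⟩ w
      omega
  rw [hterm]
  unfold LF RF
  simp only [Matrix.cons_val_zero, Matrix.cons_val_one, Matrix.cons_val]
  generalize v 0 = a
  generalize v 1 = b
  generalize v 2 = c
  rcases hm with ⟨h, rfl⟩ | ⟨h, rfl⟩
  · simp only [h, and_true]
    omega
  · simp only [h, and_false, false_or]
    omega

theorem rep_zero : Rep (Move Lo) (Move Ro) zero ![0, 0, 0] := by
  refine ⟨⟨fun i => i.elim0, fun w hw => ?_⟩, fun i => i.elim0, fun w hw => ?_⟩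
  · rw [lo_iff] at hw; simp at hw
  · rw [ro_iff] at hw; simp at hw

theorem rep_star : Rep (Move Lo) (Move Ro) star ![1, 0, 0] := by
  refine ⟨⟨fun i => ⟨![0, 0, 0], ?_, rep_zero⟩, fun w hw => ⟨0, ?_⟩⟩,
    fun i => ⟨![0, 0, 0], ?_, rep_zero⟩, fun w hw => ⟨0, ?_⟩⟩
  · rw [lo_iff]; simp
  · rw [lo_iff] at hw
    simp at hw
    rw [hw]
    exact rep_zero
  · rw [ro_iff]; simp
  · rw [ro_iff] at hw
    simp at hw
    rw [hw]
    exact rep_zero

theorem rep_u : Rep (Move Lo) (Move Ro) gu ![0, 1, 0] := by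
  refine ⟨⟨?_, fun w hw => ?_⟩, fun i => ⟨![0, 0, 0], ?_, ?_⟩, fun w hw => ⟨0, ?_⟩⟩
  · intro i
    fin_cases i
    · exact ⟨![0, 0, 0], by rw [lo_iff]; simp, rep_zero⟩
    · exact ⟨![1, 0, 0], by rw [lo_iff]; simp, rep_star⟩
  · rw [lo_iff] at hw
    simp at hw
    rcases hw with rfl | rfl
    · exact ⟨0, rep_zero⟩
    · exact ⟨1, rep_star⟩
  · rw [ro_iff]; simp
  · fin_cases i
    exact rep_zero
  · rw [ro_iff] at hw
    simp at hw
    rw [hw]
    exact rep_zero

theorem rep_add {G H : Game} {v w : Fin 3 → ℕ} (hG : Rep (Move Lo) (Move Ro) G v)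
    (hH : Rep (Move Lo) (Move Ro) H w) : Rep (Move Lo) (Move Ro) (add G H) (v + w) :=
  Rep.add (move_add Lo) (move_add Ro) G v hG H w hH

theorem rep_G : Rep (Move Lo) (Move Ro) gG ![0, 0, 1] := by
  have h2 : Rep (Move Lo) (Move Ro) (add gu gu) ![0, 2, 0] := by
    have := rep_add rep_u rep_u
    simpa using this
  refine ⟨⟨fun i => ⟨![0, 2, 0], ?_, ?_⟩, fun w hw => ⟨0, ?_⟩⟩,
    fun i => ⟨![0, 1, 0], ?_, ?_⟩, fun w hw => ⟨0, ?_⟩⟩
  · rw [lo_iff]; simp
  · fin_cases i
    exact h2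
  · rw [lo_iff] at hw
    simp at hw
    rw [hw]
    exact h2
  · rw [ro_iff]; simp
  · fin_cases i
    exact rep_u
  · rw [ro_iff] at hw
    simp at hw
    rw [hw]
    exact rep_u

/-- The outcomes of the sums. -/
theorem rep_first {G : Game} {v : Fin 3 → ℕ} (h : Rep (Move Lo) (Move Ro) G v) :
    (((first False G).1 ↔ LF 0 v) ∧ ((first False G).2 ↔ RF 0 v)) ∧
    (((first True G).1 ↔ LF 1 v) ∧ ((first True G).2 ↔ RF 1 v)) :=
  ⟨Rep.first (LF_rec False 0 (Or.inr ⟨not_false, rfl⟩)) (RF_rec False 0 (Or.inr ⟨not_false, rfl⟩))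
    G v h,
   Rep.first (LF_rec True 1 (Or.inl ⟨trivial, rfl⟩)) (RF_rec True 1 (Or.inl ⟨trivial, rfl⟩)) G v h⟩

/-- Sums with a copy of `G` are not sums of copies of `*` and `u`. -/
theorem rep_unique (X : Game) : ∀ x v : Fin 3 → ℕ, Rep (Move Lo) (Move Ro) X x →
    Rep (Move Lo) (Move Ro) X v → 1 ≤ x 2 → v 2 = 0 → False := by
  induction X using game_induction with
  | h X ihL ihR =>
    intro x v hx hv h1 h0
    have hx' := hx
    have hv' := hv
    rw [rep_iff] at hx' hv'
    obtain ⟨⟨a1, a2⟩, a3, a4⟩ := hx'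
    obtain ⟨⟨b1, b2⟩, b3, b4⟩ := hv'
    -- Left options keep the type
    have stepL : ∀ y, Move Lo x y → 1 ≤ y 2 → False := by
      intro y hy hy1
      obtain ⟨K, hK, hKy⟩ := a2 y hy
      obtain ⟨w, hw, hKw⟩ := b1 K hK
      refine ihL K hK y w hKy hKw hy1 ?_
      rw [lo_iff] at hw
      rcases hw with ⟨_, rfl⟩ | ⟨_, rfl⟩ | ⟨_, rfl⟩ | ⟨h, rfl⟩
      · simpa using h0
      · simpa using h0
      · simpa using h0
      · omega
    by_cases c0 : 1 ≤ x 0
    · exact stepL ![x 0 - 1, x 1, x 2] ((lo_iff _ _).2 (Or.inl ⟨c0, rfl⟩)) (by simpa using h1)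
    by_cases c1 : 1 ≤ x 1
    · exact stepL ![x 0, x 1 - 1, x 2] ((lo_iff _ _).2 (Or.inr (Or.inl ⟨c1, rfl⟩)))
        (by simpa using h1)
    by_cases c2 : 2 ≤ x 2
    · refine stepL ![x 0, x 1 + 2, x 2 - 1]
        ((lo_iff _ _).2 (Or.inr (Or.inr (Or.inr ⟨by omega, rfl⟩)))) ?_
      simp
      omega
    -- now `x` is `G` alone
    have key : ∀ w, Move Lo v w → Move Ro v w → False := by
      intro w hwl hwr
      obtain ⟨K, hK, hKw⟩ := b2 w hwl
      obtain ⟨y, hy, hKy⟩ := a1 K hK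
      obtain ⟨K', hK', hKw'⟩ := b4 w hwr
      obtain ⟨y', hy', hKy'⟩ := a3 K' hK'
      rw [lo_iff] at hy
      rw [ro_iff] at hy'
      have ey : y = ![0, 2, 0] := by
        rcases hy with ⟨h, _⟩ | ⟨h, _⟩ | ⟨h, _⟩ | ⟨_, rfl⟩
        · omega
        · omega
        · omega
        · rw [vec3_ext]; simp; omega
      have ey' : y' = ![0, 1, 0] := by
        rcases hy' with ⟨h, _⟩ | ⟨h, _⟩ | ⟨_, rfl⟩
        · omega
        · omega
        · rw [vec3_ext]; simp; omega
      subst ey ey'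
      have e1 := (rep_first hKw).1.2
      have e2 := (rep_first hKy).1.2
      have e3 := (rep_first hKw').1.2
      have e4 := (rep_first hKy').1.2
      have f1 : ¬ RF 0 ![0, 2, 0] := by unfold RF; simp
      have f2 : RF 0 ![0, 1, 0] := by unfold RF; simp
      exact f1 (e2.1 (e1.2 (e3.1 (e4.2 f2))))
    by_cases d0 : 1 ≤ v 0
    · exact key ![v 0 - 1, v 1, v 2] ((lo_iff _ _).2 (Or.inl ⟨d0, rfl⟩))
        ((ro_iff _ _).2 (Or.inl ⟨d0, rfl⟩))
    by_cases d1 : 1 ≤ v 1
    · exact key ![v 0, v 1 - 1, v 2] ((lo_iff _ _).2 (Or.inr (Or.inl ⟨d1, rfl⟩)))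
        ((ro_iff _ _).2 (Or.inr (Or.inl ⟨d1, rfl⟩)))
    -- `v` is zero, but `x` is not
    obtain ⟨K, hK, -⟩ := a2 ![x 0, x 1 + 2, x 2 - 1]
      ((lo_iff _ _).2 (Or.inr (Or.inr (Or.inr ⟨h1, rfl⟩))))
    obtain ⟨w, hw, -⟩ := b1 K hK
    rw [lo_iff] at hw
    omega

/-! ### The evilly normal pair -/

/-- All sums of copies of `*`, `u` and `G`. -/
def A : Set Game := {X | ∃ v, Rep (Move Lo) (Move Ro) X v}

/-- The sums with at least one copy of `G`. -/
def K : Set Game := {X | ∃ v, Rep (Move Lo) (Move Ro) X v ∧ 1 ≤ v 2}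

theorem closed_A : IsClosedSet A := by
  refine ⟨?_, ?_, ?_⟩
  · rintro G ⟨v, hv⟩ H ⟨w, hw⟩
    exact ⟨v + w, rep_add hv hw⟩
  · rintro G ⟨v, hv⟩ G' hG'
    rw [rep_iff] at hv
    obtain ⟨w, -, hw⟩ := hv.1.1 G' hG'
    exact ⟨w, hw⟩
  · rintro G ⟨v, hv⟩ G' hG'
    rw [rep_iff] at hv
    obtain ⟨w, -, hw⟩ := hv.2.1 G' hG'
    exact ⟨w, hw⟩

theorem dicotic_A : ∀ X ∈ A, Dicotic X := by
  rintro X ⟨v, hv⟩
  refine Rep.dicotic ?_ X v hv
  intro v
  simp only [lo_iff, ro_iff]
  constructor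
  · intro h w hw
    have h0 := h ![v 0 - 1, v 1, v 2]
    have h1 := h ![v 0, v 1 - 1, v 2]
    have h2 := h ![v 0, v 1 + 2, v 2 - 1]
    simp only [and_true] at h0 h1 h2
    omega
  · intro h w hw
    have h0 := h ![v 0 - 1, v 1, v 2]
    have h1 := h ![v 0, v 1 - 1, v 2]
    have h2 := h ![v 0, v 1 + 1, v 2 - 1]
    simp only [and_true] at h0 h1 h2
    omega

theorem evil_K : IsEvilKernel A K := by
  refine ⟨?_, ?_, ?_⟩
  · rintro X ⟨v, hv, -⟩
    exact ⟨v, hv⟩
  · rintro X ⟨v, hv, h⟩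
    unfold oPlus oMinus
    rw [outcome_eq_iff]
    obtain ⟨⟨h1, h2⟩, h3, h4⟩ := rep_first hv
    rw [h1, h2, h3, h4]
    unfold LF RF
    clear h1 h2 h3 h4 hv
    generalize v 0 = a at *
    generalize v 1 = b at *
    generalize v 2 = c at *
    omega
  · rintro X ⟨v, hv⟩ hX
    have h0 : v 2 = 0 := by
      by_contra hcon
      exact hX ⟨v, hv, by omega⟩
    unfold oPlus oMinus
    rw [outcome_eq_iff, outcome_eq_iff]
    obtain ⟨⟨h1, h2⟩, h3, h4⟩ := rep_first hv
    obtain ⟨⟨k1, k2⟩, k3, k4⟩ := rep_first (rep_add hv rep_star)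
    rw [h1, h2, h3, h4, k1, k2, k3, k4]
    unfold LF RF
    simp only [Pi.add_apply, Matrix.cons_val_zero, Matrix.cons_val_one, Matrix.cons_val, add_zero,
      and_true]
    clear h1 h2 h3 h4 k1 k2 k3 k4 hv hX
    generalize v 0 = a at *
    generalize v 1 = b at *
    generalize v 2 = c at *
    omega

theorem evillyNormal : EvillyNormal A K := by
  refine ⟨dicotic_A, closed_A, evil_K, ?_⟩
  rintro G ⟨v, hv⟩ H ⟨w, hw⟩
  constructor
  · intro h
    constructor
    · rintro ⟨v', hv', h1⟩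
      exact h ⟨v' + w, rep_add hv' hw, by rw [Pi.add_apply]; omega⟩
    · rintro ⟨w', hw', h1⟩
      exact h ⟨v + w', rep_add hv hw', by rw [Pi.add_apply]; omega⟩
  · rintro ⟨hG, hH⟩ ⟨x, hx, h1⟩
    have hv0 : v 2 = 0 := by
      by_contra hcon
      exact hG ⟨v, hv, by omega⟩
    have hw0 : w 2 = 0 := by
      by_contra hcon
      exact hH ⟨w, hw, by omega⟩
    exact rep_unique _ x (v + w) hx (rep_add hv hw) h1 (by rw [Pi.add_apply]; omega)

/-! ### Sums of copies of `*`, `u` and `-u` -/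

/-- Left options of the generators `*`, `u`, `-u`. -/
def Ly : Fin 3 → List (Fin 3 → ℕ) := ![[![0, 0, 0]], [![0, 0, 0], ![1, 0, 0]], [![0, 0, 0]]]

/-- Right options of the generators `*`, `u`, `-u`. -/
def Ry : Fin 3 → List (Fin 3 → ℕ) := ![[![0, 0, 0]], [![0, 0, 0]], [![0, 0, 0], ![1, 0, 0]]]

theorem ly_iff (v x : Fin 3 → ℕ) : Move Ly v x ↔
    (1 ≤ v 0 ∧ x = ![v 0 - 1, v 1, v 2]) ∨
    (1 ≤ v 1 ∧ x = ![v 0, v 1 - 1, v 2]) ∨ (1 ≤ v 1 ∧ x = ![v 0 + 1, v 1 - 1, v 2]) ∨
    (1 ≤ v 2 ∧ x = ![v 0, v 1, v 2 - 1]) := by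
  unfold Move
  simp only [Fin.exists_fin_succ, Fin.isValue, vec3_ext, Ly]
  simp
  omega

theorem ry_iff (v x : Fin 3 → ℕ) : Move Ry v x ↔
    (1 ≤ v 0 ∧ x = ![v 0 - 1, v 1, v 2]) ∨
    (1 ≤ v 1 ∧ x = ![v 0, v 1 - 1, v 2]) ∨
    (1 ≤ v 2 ∧ x = ![v 0, v 1, v 2 - 1]) ∨ (1 ≤ v 2 ∧ x = ![v 0 + 1, v 1, v 2 - 1]) := by
  unfold Move
  simp only [Fin.exists_fin_succ, Fin.isValue, vec3_ext, Ry]
  simp
  omega

/-- Left, moving first, wins the misère play. -/
def Lf (v : Fin 3 → ℕ) : Prop :=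
  v 2 < v 1 ∨ ((v 1 = v 2 ∨ v 1 + 1 = v 2) ∧ (v 0 + v 1 + v 2) % 2 = 0)

/-- Right, moving first, wins the misère play. -/
def Rf (v : Fin 3 → ℕ) : Prop :=
  v 1 < v 2 ∨ ((v 1 = v 2 ∨ v 1 = v 2 + 1) ∧ (v 0 + v 1 + v 2) % 2 = 0)

theorem Lf_rec (v : Fin 3 → ℕ) :
    Lf v ↔ (((∀ w, ¬ Move Ly v w) ∧ True) ∨ ∃ w, Move Ly v w ∧ ¬ Rf w) := by
  simp only [ly_iff, or_and_right, exists_or, and_assoc, exists_and_left, exists_eq_left]
  have hterm : (∀ w, ¬ (1 ≤ v 0 ∧ w = ![v 0 - 1, v 1, v 2] ∨ 1 ≤ v 1 ∧ w = ![v 0, v 1 - 1, v 2] ∨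
      1 ≤ v 1 ∧ w = ![v 0 + 1, v 1 - 1, v 2] ∨ 1 ≤ v 2 ∧ w = ![v 0, v 1, v 2 - 1])) ↔
      (v 0 = 0 ∧ v 1 = 0 ∧ v 2 = 0) := by
    constructor
    · intro h
      have h0 := h ![v 0 - 1, v 1, v 2]
      have h1 := h ![v 0, v 1 - 1, v 2]
      have h2 := h ![v 0, v 1, v 2 - 1]
      simp only [and_true] at h0 h1 h2
      omega
    · rintro ⟨h0, h1, h2⟩ w
      omega
  rw [hterm]
  unfold Lf Rf
  simp only [Matrix.cons_val_zero, Matrix.cons_val_one, Matrix.cons_val]
  generalize v 0 = a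
  generalize v 1 = b
  generalize v 2 = c
  simp only [and_true]
  omega

theorem Rf_rec (v : Fin 3 → ℕ) :
    Rf v ↔ (((∀ w, ¬ Move Ry v w) ∧ True) ∨ ∃ w, Move Ry v w ∧ ¬ Lf w) := by
  simp only [ry_iff, or_and_right, exists_or, and_assoc, exists_and_left, exists_eq_left]
  have hterm : (∀ w, ¬ (1 ≤ v 0 ∧ w = ![v 0 - 1, v 1, v 2] ∨ 1 ≤ v 1 ∧ w = ![v 0, v 1 - 1, v 2] ∨
      1 ≤ v 2 ∧ w = ![v 0, v 1, v 2 - 1] ∨ 1 ≤ v 2 ∧ w = ![v 0 + 1, v 1, v 2 - 1])) ↔
      (v 0 = 0 ∧ v 1 = 0 ∧ v 2 = 0) := by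
    constructor
    · intro h
      have h0 := h ![v 0 - 1, v 1, v 2]
      have h1 := h ![v 0, v 1 - 1, v 2]
      have h2 := h ![v 0, v 1, v 2 - 1]
      simp only [and_true] at h0 h1 h2
      omega
    · rintro ⟨h0, h1, h2⟩ w
      omega
  rw [hterm]
  unfold Lf Rf
  simp only [Matrix.cons_val_zero, Matrix.cons_val_one, Matrix.cons_val]
  generalize v 0 = a
  generalize v 1 = b
  generalize v 2 = c
  simp only [and_true]
  omega

theorem repY_zero : Rep (Move Ly) (Move Ry) zero ![0, 0, 0] := by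
  refine ⟨⟨fun i => i.elim0, fun w hw => ?_⟩, fun i => i.elim0, fun w hw => ?_⟩
  · rw [ly_iff] at hw; simp at hw
  · rw [ry_iff] at hw; simp at hw

theorem repY_star : Rep (Move Ly) (Move Ry) star ![1, 0, 0] := by
  refine ⟨⟨fun i => ⟨![0, 0, 0], ?_, repY_zero⟩, fun w hw => ⟨0, ?_⟩⟩,
    fun i => ⟨![0, 0, 0], ?_, repY_zero⟩, fun w hw => ⟨0, ?_⟩⟩
  · rw [ly_iff]; simp
  · rw [ly_iff] at hw
    simp at hw
    rw [hw]
    exact repY_zero
  · rw [ry_iff]; simp
  · rw [ry_iff] at hw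
    simp at hw
    rw [hw]
    exact repY_zero

theorem repY_u : Rep (Move Ly) (Move Ry) gu ![0, 1, 0] := by
  refine ⟨⟨?_, fun w hw => ?_⟩, fun i => ⟨![0, 0, 0], ?_, ?_⟩, fun w hw => ⟨0, ?_⟩⟩
  · intro i
    fin_cases i
    · exact ⟨![0, 0, 0], by rw [ly_iff]; simp, repY_zero⟩
    · exact ⟨![1, 0, 0], by rw [ly_iff]; simp, repY_star⟩
  · rw [ly_iff] at hw
    simp at hw
    rcases hw with rfl | rfl
    · exact ⟨0, repY_zero⟩
    · exact ⟨1, repY_star⟩
  · rw [ry_iff]; simp
  · fin_cases i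
    exact repY_zero
  · rw [ry_iff] at hw
    simp at hw
    rw [hw]
    exact repY_zero

theorem repY_add {G H : Game} {v w : Fin 3 → ℕ} (hG : Rep (Move Ly) (Move Ry) G v)
    (hH : Rep (Move Ly) (Move Ry) H w) : Rep (Move Ly) (Move Ry) (add G H) (v + w) :=
  Rep.add (move_add Ly) (move_add Ry) G v hG H w hH

theorem repY_neg {G : Game} {v : Fin 3 → ℕ} (hG : Rep (Move Ly) (Move Ry) G v) :
    Rep (Move Ly) (Move Ry) (neg G) ![v 0, v 2, v 1] := by
  refine Rep.neg (fun v => ![v 0, v 2, v 1]) ?_ ?_ G v hG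
  · intro v y
    simp only [ly_iff, ry_iff, or_and_right, exists_or, and_assoc, exists_and_left, exists_eq_left]
    simp
    tauto
  · intro v y
    simp only [ly_iff, ry_iff, or_and_right, exists_or, and_assoc, exists_and_left, exists_eq_left]
    simp
    tauto

theorem repY_first {G : Game} {v : Fin 3 → ℕ} (h : Rep (Move Ly) (Move Ry) G v) :
    ((first True G).1 ↔ Lf v) ∧ ((first True G).2 ↔ Rf v) :=
  Rep.first Lf_rec Rf_rec G v h

/-! ### Invertibility -/

/-- Adding a game without options does not change the winner. -/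
theorem first_add_terminal (mis : Prop) (X : Game) (hl : leftOpts X = ∅) (hr : rightOpts X = ∅)
    (G : Game) : ((first mis (add G X)).1 ↔ (first mis G).1) ∧
      ((first mis (add G X)).2 ↔ (first mis G).2) := by
  induction G using game_induction with
  | h G ihL ihR =>
    have eL : leftOpts (add G X) = (fun K => add K X) '' leftOpts G := by
      rw [leftOpts_add, hl, Set.image_empty, Set.union_empty]
    have eR : rightOpts (add G X) = (fun K => add K X) '' rightOpts G := by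
      rw [rightOpts_add, hr, Set.image_empty, Set.union_empty]
    rw [first_left, first_left mis G, first_right, first_right mis G, eL, eR]
    simp only [Set.image_eq_empty, Set.exists_mem_image]
    constructor
    · constructor
      · rintro (h | ⟨K, hK, h⟩)
        · exact Or.inl h
        · exact Or.inr ⟨K, hK, fun h2 => h ((ihL K hK).2.2 h2)⟩
      · rintro (h | ⟨K, hK, h⟩)
        · exact Or.inl h
        · exact Or.inr ⟨K, hK, fun h2 => h ((ihL K hK).2.1 h2)⟩
    · constructor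
      · rintro (h | ⟨K, hK, h⟩)
        · exact Or.inl h
        · exact Or.inr ⟨K, hK, fun h2 => h ((ihR K hK).1.2 h2)⟩
      · rintro (h | ⟨K, hK, h⟩)
        · exact Or.inl h
        · exact Or.inr ⟨K, hK, fun h2 => h ((ihR K hK).1.1 h2)⟩

/-- If in all subpositions `G'` of `G` the first player wins the misère play of `G' - G'`, then
`G - G` is equivalent to `0` modulo the dicots. -/
theorem inverse (S : Set Game) (hSl : ∀ G ∈ S, ∀ K ∈ leftOpts G, K ∈ S)
    (hSr : ∀ G ∈ S, ∀ K ∈ rightOpts G, K ∈ S)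
    (hS : ∀ G ∈ S, (first True (add G (neg G))).1 ∧ (first True (add G (neg G))).2) (G : Game) :
    G ∈ S → ∀ X, Dicotic X →
      (((first True (add (add G (neg G)) X)).1 ↔ (first True X).1) ∧
        ((first True (add (add G (neg G)) X)).2 ↔ (first True X).2)) := by
  induction G using game_induction with
  | h G ihL ihR =>
    intro hG X
    induction X using game_induction with
    | h X jL jR =>
      intro hX
      have hX' := hX
      rw [dicotic_iff] at hX'
      obtain ⟨hX0, hXl, hXr⟩ := hX'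
      -- a player who wins `X` moving first wins the sum moving first
      have a1 : (first True X).1 → (first True (add (add G (neg G)) X)).1 := by
        intro h
        rw [first_left] at h
        rcases h with ⟨h, -⟩ | ⟨K, hK, h⟩
        · rw [(first_add_terminal True X h (hX0.1 h) _).1]
          exact (hS G hG).1
        · rw [first_left]
          refine Or.inr ⟨add (add G (neg G)) K, mem_leftOpts_add.2 (Or.inr ⟨K, hK, rfl⟩), ?_⟩
          rw [(jL K hK (hXl K hK)).2]
          exact h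
      have a2 : (first True X).2 → (first True (add (add G (neg G)) X)).2 := by
        intro h
        rw [first_right] at h
        rcases h with ⟨h, -⟩ | ⟨K, hK, h⟩
        · rw [(first_add_terminal True X (hX0.2 h) h _).2]
          exact (hS G hG).2
        · rw [first_right]
          refine Or.inr ⟨add (add G (neg G)) K, mem_rightOpts_add.2 (Or.inr ⟨K, hK, rfl⟩), ?_⟩
          rw [(jR K hK (hXr K hK)).1]
          exact h
      refine ⟨⟨?_, a1⟩, ?_, a2⟩
      · intro h
        rw [first_left] at h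
        rcases h with ⟨h, -⟩ | ⟨K, hK, h⟩
        · have h1 : leftOpts X = ∅ := by
            rw [leftOpts_add, Set.union_empty_iff, Set.image_eq_empty, Set.image_eq_empty] at h
            exact h.2
          rw [first_left]
          exact Or.inl ⟨h1, trivial⟩
        · rcases mem_leftOpts_add.1 hK with ⟨Y, hY, rfl⟩ | ⟨K', hK', rfl⟩
          · rcases mem_leftOpts_add.1 hY with ⟨G', hG', rfl⟩ | ⟨N, hN, rfl⟩
            · by_contra hcon
              apply h
              rw [first_right]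
              refine Or.inr ⟨add (add G' (neg G')) X, mem_rightOpts_add.2 (Or.inl
                ⟨add G' (neg G'), mem_rightOpts_add.2 (Or.inr ⟨neg G', ?_, rfl⟩), rfl⟩), ?_⟩
              · rw [rightOpts_neg]
                exact ⟨G', hG', rfl⟩
              · rw [(ihL G' hG' (hSl G hG G' hG') X hX).1]
                exact hcon
            · rw [leftOpts_neg] at hN
              obtain ⟨G', hG', rfl⟩ := hN
              by_contra hcon
              apply h
              rw [first_right]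
              refine Or.inr ⟨add (add G' (neg G')) X, mem_rightOpts_add.2 (Or.inl
                ⟨add G' (neg G'), mem_rightOpts_add.2 (Or.inl ⟨G', hG', rfl⟩), rfl⟩), ?_⟩
              rw [(ihR G' hG' (hSr G hG G' hG') X hX).1]
              exact hcon
          · rw [first_left]
            refine Or.inr ⟨K', hK', ?_⟩
            rw [← (jL K' hK' (hXl K' hK')).2]
            exact h
      · intro h
        rw [first_right] at h
        rcases h with ⟨h, -⟩ | ⟨K, hK, h⟩
        · have h1 : rightOpts X = ∅ := by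
            rw [rightOpts_add, Set.union_empty_iff, Set.image_eq_empty, Set.image_eq_empty] at h
            exact h.2
          rw [first_right]
          exact Or.inl ⟨h1, trivial⟩
        · rcases mem_rightOpts_add.1 hK with ⟨Y, hY, rfl⟩ | ⟨K', hK', rfl⟩
          · rcases mem_rightOpts_add.1 hY with ⟨G', hG', rfl⟩ | ⟨N, hN, rfl⟩
            · by_contra hcon
              apply h
              rw [first_left]
              refine Or.inr ⟨add (add G' (neg G')) X, mem_leftOpts_add.2 (Or.inl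
                ⟨add G' (neg G'), mem_leftOpts_add.2 (Or.inr ⟨neg G', ?_, rfl⟩), rfl⟩), ?_⟩
              · rw [leftOpts_neg]
                exact ⟨G', hG', rfl⟩
              · rw [(ihR G' hG' (hSr G hG G' hG') X hX).2]
                exact hcon
            · rw [rightOpts_neg] at hN
              obtain ⟨G', hG', rfl⟩ := hN
              by_contra hcon
              apply h
              rw [first_left]
              refine Or.inr ⟨add (add G' (neg G')) X, mem_leftOpts_add.2 (Or.inl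
                ⟨add G' (neg G'), mem_leftOpts_add.2 (Or.inl ⟨G', hG', rfl⟩), rfl⟩), ?_⟩
              rw [(ihL G' hG' (hSl G hG G' hG') X hX).2]
              exact hcon
          · rw [first_right]
            refine Or.inr ⟨K', hK', ?_⟩
            rw [← (jR K' hK' (hXr K' hK')).1]
            exact h

/-- `0 + X` has the same winners as `X`. -/
theorem first_zero_add (X : Game) : ((first True (add zero X)).1 ↔ (first True X).1) ∧
    ((first True (add zero X)).2 ↔ (first True X).2) := by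
  have hl : leftOpts zero = ∅ := by simp [zero, leftOpts]
  have hr : rightOpts zero = ∅ := by simp [zero, rightOpts]
  induction X using game_induction with
  | h X ihL ihR =>
    have eL : leftOpts (add zero X) = (fun K => add zero K) '' leftOpts X := by
      rw [leftOpts_add, hl, Set.image_empty, Set.empty_union]
    have eR : rightOpts (add zero X) = (fun K => add zero K) '' rightOpts X := by
      rw [rightOpts_add, hr, Set.image_empty, Set.empty_union]
    rw [first_left, first_left True X, first_right, first_right True X, eL, eR]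
    simp only [Set.image_eq_empty, Set.exists_mem_image]
    constructor
    · constructor
      · rintro (h | ⟨K, hK, h⟩)
        · exact Or.inl h
        · exact Or.inr ⟨K, hK, fun h2 => h ((ihL K hK).2.2 h2)⟩
      · rintro (h | ⟨K, hK, h⟩)
        · exact Or.inl h
        · exact Or.inr ⟨K, hK, fun h2 => h ((ihL K hK).2.1 h2)⟩
    · constructor
      · rintro (h | ⟨K, hK, h⟩)
        · exact Or.inl h
        · exact Or.inr ⟨K, hK, fun h2 => h ((ihR K hK).1.2 h2)⟩
      · rintro (h | ⟨K, hK, h⟩)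
        · exact Or.inl h
        · exact Or.inr ⟨K, hK, fun h2 => h ((ihR K hK).1.1 h2)⟩

/-- The subpositions of `G` (and some more games). -/
def S : Set Game := {X | X = gG ∨ ∃ p n, Rep (Move Ly) (Move Ry) X ![p, n, 0]}

theorem leftOpts_G : leftOpts gG = {add gu gu} := by
  unfold gG leftOpts
  simp

theorem rightOpts_G : rightOpts gG = {gu} := by
  unfold gG rightOpts
  simp

theorem leftOpts_u : leftOpts gu = {zero, star} := by
  unfold gu leftOpts
  simp [Set.pair_comm]

theorem rightOpts_u : rightOpts gu = {zero} := by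
  unfold gu rightOpts
  simp

theorem repY_uu : Rep (Move Ly) (Move Ry) (add gu gu) ![0, 2, 0] := by
  have := repY_add repY_u repY_u
  simpa using this

theorem S_first_G : (first True (add gG (neg gG))).1 ∧ (first True (add gG (neg gG))).2 := by
  have huu := repY_neg repY_uu
  have hnu := repY_neg repY_u
  have hn0 := repY_neg repY_zero
  have hn1 := repY_neg repY_star
  constructor
  · -- Left moves to `G - u`
    rw [first_left]
    refine Or.inr ⟨add gG (neg gu), mem_leftOpts_add.2 (Or.inr ⟨neg gu, ?_, rfl⟩), ?_⟩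
    · rw [leftOpts_neg, rightOpts_G]
      simp
    rw [first_right]
    rintro (⟨h, -⟩ | ⟨K, hK, h⟩)
    · rw [rightOpts_add, rightOpts_G] at h
      simp at h
      exact absurd h (Set.insert_nonempty _ _).ne_empty
    · apply h
      rcases mem_rightOpts_add.1 hK with ⟨K', hK', rfl⟩ | ⟨K', hK', rfl⟩
      · rw [rightOpts_G] at hK'
        obtain rfl : K' = gu := hK'
        rw [(repY_first (repY_add repY_u hnu)).1]
        unfold Lf
        simp
      · rw [rightOpts_neg, leftOpts_u] at hK'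
        rw [first_left]
        refine Or.inr ⟨add (add gu gu) K', mem_leftOpts_add.2 (Or.inl ⟨add gu gu, ?_, rfl⟩), ?_⟩
        · rw [leftOpts_G]; rfl
        · simp only [Set.image_insert_eq, Set.image_singleton, Set.mem_insert_iff,
            Set.mem_singleton_iff] at hK'
          rcases hK' with rfl | rfl
          · rw [(repY_first (repY_add repY_uu hn0)).2]
            unfold Rf
            simp
          · rw [(repY_first (repY_add repY_uu hn1)).2]
            unfold Rf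
            simp
  · -- Right moves to `u - G`
    rw [first_right]
    refine Or.inr ⟨add gu (neg gG), mem_rightOpts_add.2 (Or.inl ⟨gu, ?_, rfl⟩), ?_⟩
    · rw [rightOpts_G]; rfl
    rw [first_left]
    rintro (⟨h, -⟩ | ⟨K, hK, h⟩)
    · rw [leftOpts_add, leftOpts_u] at h
      simp at h
      exact absurd h.1 (Set.insert_nonempty _ _).ne_empty
    · apply h
      rcases mem_leftOpts_add.1 hK with ⟨K', hK', rfl⟩ | ⟨K', hK', rfl⟩
      · rw [leftOpts_u] at hK'
        rw [first_right]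
        refine Or.inr ⟨add K' (neg (add gu gu)), mem_rightOpts_add.2 (Or.inr
          ⟨neg (add gu gu), ?_, rfl⟩), ?_⟩
        · rw [rightOpts_neg, leftOpts_G]
          simp
        · simp only [Set.mem_insert_iff, Set.mem_singleton_iff] at hK'
          rcases hK' with rfl | rfl
          · rw [(repY_first (repY_add repY_zero huu)).1]
            unfold Lf
            simp
          · rw [(repY_first (repY_add repY_star huu)).1]
            unfold Lf
            simp
      · rw [leftOpts_neg, rightOpts_G] at hK'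
        simp only [Set.image_singleton, Set.mem_singleton_iff] at hK'
        subst hK'
        rw [(repY_first (repY_add repY_u hnu)).2]
        unfold Rf
        simp

theorem invertible_G : InvertibleModDicots gG := by
  have hdG : Dicotic gG := dicotic_A gG ⟨_, rep_G⟩
  refine ⟨hdG, neg gG, dicotic_neg _ hdG, ?_⟩
  intro X hX
  have key := inverse S ?_ ?_ ?_ gG (Or.inl rfl) X hX
  · unfold oMinus
    rw [outcome_eq_iff]
    have hz := first_zero_add X
    rw [key.1, key.2, hz.1, hz.2]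
    exact ⟨Iff.rfl, Iff.rfl⟩
  · rintro G (rfl | ⟨p, n, hG⟩) K hK
    · rw [leftOpts_G] at hK
      obtain rfl : K = add gu gu := hK
      exact Or.inr ⟨0, 2, repY_uu⟩
    · rw [rep_iff] at hG
      obtain ⟨w, hw, hKw⟩ := hG.1.1 K hK
      rw [ly_iff] at hw
      simp at hw
      rcases hw with ⟨_, rfl⟩ | ⟨_, rfl⟩ | ⟨_, rfl⟩
      · exact Or.inr ⟨_, _, hKw⟩
      · exact Or.inr ⟨_, _, hKw⟩
      · exact Or.inr ⟨_, _, hKw⟩
  · rintro G (rfl | ⟨p, n, hG⟩) K hK
    · rw [rightOpts_G] at hK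
      obtain rfl : K = gu := hK
      exact Or.inr ⟨0, 1, repY_u⟩
    · rw [rep_iff] at hG
      obtain ⟨w, hw, hKw⟩ := hG.2.1 K hK
      rw [ry_iff] at hw
      simp at hw
      rcases hw with ⟨_, rfl⟩ | ⟨_, rfl⟩
      · exact Or.inr ⟨_, _, hKw⟩
      · exact Or.inr ⟨_, _, hKw⟩
  · rintro G (rfl | ⟨p, n, hG⟩)
    · exact S_first_G
    · have h := repY_first (repY_add hG (repY_neg hG))
      rw [h.1, h.2]
      unfold Lf Rf
      simp
      omega

/-- There is an evilly normal pair `(A, K)` and a game `G ∈ K` that is invertible modulo the dicots. -/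
theorem result : ∃ (A K : Set Game) (G : Game), EvillyNormal A K ∧ G ∈ K ∧ InvertibleModDicots G :=
  ⟨A, K, gG, evillyNormal, ⟨_, rep_G, by simp⟩, invertible_G⟩

end Pool.Agent.Results.MP_541980_co.InvertibleFirm
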